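import Pool.Agent.H30.FCB.StC
import Pool.Agent.H30.FCB.Basic

/-! FCB, module XPRI: the coordinates of `X` are prime in the Cox ring. -/

open MvPolynomial

namespace FCB

namespace XPRI

private lemma nv_mul {ι : Type} {j : ι} {p q : MvPolynomial ι ℂ} (hp : j ∉ p.vars)
    (hq : j ∉ q.vars) : j ∉ (p * q).vars := by
  classical
  intro h
  have h2 := vars_mul _ _ h
  rw [Finset.mem_union] at h2
  exact h2.elim hp hq

private lemma nv_add {ι : Type} {j : ι} {p q : MvPolynomial ι ℂ} (hp : j ∉ p.vars)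
    (hq : j ∉ q.vars) : j ∉ (p + q).vars := by
  classical
  intro h
  have h2 := vars_add_subset _ _ h
  rw [Finset.mem_union] at h2
  exact h2.elim hp hq

private lemma nv_neg {ι : Type} {j : ι} {p : MvPolynomial ι ℂ} (hp : j ∉ p.vars) :
    j ∉ (-p).vars := by
  rwa [vars_neg]

private lemma nv_sub {ι : Type} {j : ι} {p q : MvPolynomial ι ℂ} (hp : j ∉ p.vars)
    (hq : j ∉ q.vars) : j ∉ (p - q).vars := by
  rw [sub_eq_add_neg]
  exact nv_add hp (nv_neg hq)

private lemma nv_pow {ι : Type} {j : ι} {p : MvPolynomial ι ℂ} (n : ℕ) (hp : j ∉ p.vars) :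
    j ∉ (p ^ n).vars := by
  intro h
  exact hp (vars_pow _ _ h)

private lemma nv_X {ι : Type} {i j : ι} (h : j ≠ i) : j ∉ (X i : MvPolynomial ι ℂ).vars := by
  rwa [vars_X, Finset.mem_singleton]

private lemma nv_two {ι : Type} {j : ι} : j ∉ (2 : MvPolynomial ι ℂ).vars := by
  have h7 : (2 : MvPolynomial ι ℂ) = C 2 := rfl
  rw [h7, vars_C]
  exact Finset.notMem_empty _

/-- setting `X j = 0` -/
private noncomputable def ph (j : CX) : MvPolynomial CX ℂ →ₐ[ℂ] MvPolynomial CX ℂ :=
  aeval fun i => if i = j then 0 else X i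

private lemma ph_self (j : CX) : ph j (X j) = 0 := by simp [ph]

private lemma ph_of {i j : CX} (h : i ≠ j) : ph j (X i) = X i := by simp [ph, h]

private lemma ph_sub (j : CX) (p : MvPolynomial CX ℂ) : X j ∣ p - ph j p := by
  induction p using MvPolynomial.induction_on with
  | C a => simp [ph, algebraMap_eq]
  | add p q hp hq =>
    rw [map_add]
    have h : p + q - (ph j p + ph j q) = (p - ph j p) + (q - ph j q) := by ring
    rw [h]
    exact dvd_add hp hq
  | mul_X p i hp =>
    rw [map_mul]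
    by_cases h : i = j
    · subst h
      rw [ph_self, mul_zero, sub_zero]
      exact Dvd.intro_left p rfl
    · rw [ph_of h, ← sub_mul]
      exact hp.mul_right _

private lemma dvd_iff (j : CX) (p : MvPolynomial CX ℂ) :
    Ideal.Quotient.mk (Ideal.span {FX}) (X j) ∣ Ideal.Quotient.mk (Ideal.span {FX}) p ↔
      ph j FX ∣ ph j p := by
  constructor
  · rintro ⟨q, hq⟩
    obtain ⟨q, rfl⟩ := Ideal.Quotient.mk_surjective q
    rw [← map_mul, Ideal.Quotient.eq, Ideal.mem_span_singleton] at hq
    obtain ⟨r, hr⟩ := hq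
    refine ⟨ph j r, ?_⟩
    have h := congrArg (ph j) hr
    rw [map_sub, map_mul, map_mul, ph_self, zero_mul, sub_zero] at h
    exact h
  · rintro ⟨s, hs⟩
    obtain ⟨c, hc⟩ := ph_sub j FX
    obtain ⟨d, hd⟩ := ph_sub j p
    have h1 : p = X j * (d - c * s) + FX * s := by
      have h2 : ph j FX = FX - X j * c := by rw [← hc]; ring
      rw [h2] at hs
      have h3 : p = X j * d + ph j p := by rw [← hd]; ring
      rw [h3, hs]
      ring
    refine ⟨Ideal.Quotient.mk _ (d - c * s), ?_⟩
    rw [← map_mul, Ideal.Quotient.eq, Ideal.mem_span_singleton]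
    refine ⟨s, ?_⟩
    nth_rewrite 1 [h1]
    ring

private lemma ne_zero_of (j : CX) (P : CX → ℂ) (h1 : eval P FX = 0) (h2 : P j ≠ 0) :
    Ideal.Quotient.mk (Ideal.span {FX}) (X j) ≠ 0 := by
  intro h
  rw [Ideal.Quotient.eq_zero_iff_mem, Ideal.mem_span_singleton] at h
  obtain ⟨r, hr⟩ := h
  have h := congrArg (eval P) hr
  rw [map_mul, h1, zero_mul, eval_X] at h
  exact h2 h

private lemma prime_of (j : CX) (hp : Prime (ph j FX)) (P : CX → ℂ) (h1 : eval P FX = 0)
    (h2 : P j ≠ 0) : Prime (Ideal.Quotient.mk (Ideal.span {FX}) (X j)) := by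
  refine ⟨ne_zero_of j P h1 h2, ?_, ?_⟩
  · intro h
    have h3 := isUnit_iff_dvd_one.1 h
    rw [← map_one (Ideal.Quotient.mk (Ideal.span {FX})), dvd_iff, map_one] at h3
    exact hp.not_isUnit (isUnit_iff_dvd_one.2 h3)
  · intro p q h
    obtain ⟨p, rfl⟩ := Ideal.Quotient.mk_surjective p
    obtain ⟨q, rfl⟩ := Ideal.Quotient.mk_surjective q
    rw [← map_mul, dvd_iff, map_mul] at h
    rw [dvd_iff, dvd_iff]
    exact hp.dvd_or_dvd h

/-- the coordinates -/
private noncomputable abbrev Z (i : CX) : MvPolynomial CX ℂ := X i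

private lemma ph_X (i j : CX) : ph j (X i) = if i = j then 0 else X i := by simp [ph]

private lemma ph_FX (j : CX) : ph j FX = ph j (X .x) ^ 2 + (2 * ph j (X .z) * ph j (X .a) *
    ph j (X .b) + (ph j (X (.y 0)) * ph j (X (.y 1)) - ph j (X (.y 2)) ^ 2) *
    (ph j (X .w) ^ 2 * ph j (X .a) ^ 2 + ph j (X .v) ^ 2 * ph j (X .b) ^ 2)) := by
  simp only [FX, GX, eP, map_add, map_mul, map_sub, map_pow, map_ofNat]

private lemma ev_FX (P : CX → ℂ) : eval P FX = P .x ^ 2 + (2 * P .z * P .a * P .b +
    (P (.y 0) * P (.y 1) - P (.y 2) ^ 2) *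
    (P .w ^ 2 * P .a ^ 2 + P .v ^ 2 * P .b ^ 2)) := by
  simp only [FX, GX, eP, map_add, map_mul, map_sub, map_pow, map_ofNat, eval_X]


private lemma ph_FX_t (i : Fin 9) : ph (.t i) FX = Z .x ^ 2 + ((2 * Z .a * Z .b) * Z .z +
    (Z (.y 0) * Z (.y 1) - Z (.y 2) ^ 2) * (Z .w ^ 2 * Z .a ^ 2 + Z .v ^ 2 * Z .b ^ 2)) := by
  rw [ph_FX]
  simp only [ph_X, reduceCtorEq, if_false]
  ring

private lemma ph_FX_y0 : ph (.y 0) FX = Z .x ^ 2 + ((2 * Z .a * Z .b) * Z .z +
    (- Z (.y 2) ^ 2) * (Z .w ^ 2 * Z .a ^ 2 + Z .v ^ 2 * Z .b ^ 2)) := by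
  rw [ph_FX]
  simp only [ph_X, reduceCtorEq, if_false, if_true, CX.y.injEq, Fin.reduceEq]
  ring

private lemma ph_FX_y1 : ph (.y 1) FX = Z .x ^ 2 + ((2 * Z .a * Z .b) * Z .z +
    (- Z (.y 2) ^ 2) * (Z .w ^ 2 * Z .a ^ 2 + Z .v ^ 2 * Z .b ^ 2)) := by
  rw [ph_FX]
  simp only [ph_X, reduceCtorEq, if_false, if_true, CX.y.injEq, Fin.reduceEq]
  ring

private lemma ph_FX_y2 : ph (.y 2) FX = Z .x ^ 2 + ((2 * Z .a * Z .b) * Z .z +
    (Z (.y 0) * Z (.y 1)) * (Z .w ^ 2 * Z .a ^ 2 + Z .v ^ 2 * Z .b ^ 2)) := by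
  rw [ph_FX]
  simp only [ph_X, reduceCtorEq, if_false, if_true, CX.y.injEq, Fin.reduceEq]
  ring

private lemma ph_FX_w : ph .w FX = Z .x ^ 2 + ((2 * Z .a * Z .b) * Z .z +
    (Z (.y 0) * Z (.y 1) - Z (.y 2) ^ 2) * (Z .v ^ 2 * Z .b ^ 2)) := by
  rw [ph_FX]
  simp only [ph_X, reduceCtorEq, if_false, if_true]
  ring

private lemma ph_FX_v : ph .v FX = Z .x ^ 2 + ((2 * Z .a * Z .b) * Z .z +
    (Z (.y 0) * Z (.y 1) - Z (.y 2) ^ 2) * (Z .w ^ 2 * Z .a ^ 2)) := by
  rw [ph_FX]
  simp only [ph_X, reduceCtorEq, if_false, if_true]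
  ring

private lemma ph_FX_a : ph .a FX = Z .x ^ 2 + ((Z (.y 0) * (Z .v ^ 2 * Z .b ^ 2)) * Z (.y 1) +
    (- Z (.y 2) ^ 2) * (Z .v ^ 2 * Z .b ^ 2)) := by
  rw [ph_FX]
  simp only [ph_X, reduceCtorEq, if_false, if_true]
  ring

private lemma ph_FX_b : ph .b FX = Z .x ^ 2 + ((Z (.y 0) * (Z .w ^ 2 * Z .a ^ 2)) * Z (.y 1) +
    (- Z (.y 2) ^ 2) * (Z .w ^ 2 * Z .a ^ 2)) := by
  rw [ph_FX]
  simp only [ph_X, reduceCtorEq, if_false, if_true]
  ring

private lemma ph_FX_z : ph .z FX = Z .x ^ 2 +
    ((Z (.y 0) * (Z .w ^ 2 * Z .a ^ 2 + Z .v ^ 2 * Z .b ^ 2)) * Z (.y 1) +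
    (- Z (.y 2) ^ 2) * (Z .w ^ 2 * Z .a ^ 2 + Z .v ^ 2 * Z .b ^ 2)) := by
  rw [ph_FX]
  simp only [ph_X, reduceCtorEq, if_false, if_true]
  ring

private lemma ph_FX_x : ph .x FX = (2 * Z .a * Z .b) * Z .z +
    (Z (.y 0) * Z (.y 1) - Z (.y 2) ^ 2) * (Z .w ^ 2 * Z .a ^ 2 + Z .v ^ 2 * Z .b ^ 2) := by
  rw [ph_FX]
  simp only [ph_X, reduceCtorEq, if_false, if_true]
  ring

private lemma ne_A : 2 * Z .a * Z .b ≠ 0 :=
  mul_ne_zero (mul_ne_zero two_ne_zero (X_ne_zero _)) (X_ne_zero _)

private lemma ne_S :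
    (Z .w ^ 2 * Z .a ^ 2 + Z .v ^ 2 * Z .b ^ 2 : MvPolynomial CX ℂ) ≠ 0 := by
  intro h
  have h1 := congrArg (eval fun _ => (1 : ℂ)) h
  simp only [map_add, map_mul, map_pow, eval_X, map_zero] at h1
  norm_num at h1

private lemma ne_P {p q : CX} : (X p ^ 2 * X q ^ 2 : MvPolynomial CX ℂ) ≠ 0 :=
  mul_ne_zero (pow_ne_zero _ (X_ne_zero _)) (pow_ne_zero _ (X_ne_zero _))

private lemma prime_z (h : S_SQF) (B : MvPolynomial CX ℂ) (h1 : CX.x ∉ B.vars)
    (h2 : CX.z ∉ B.vars) : Prime (Z .x ^ 2 + ((2 * Z .a * Z .b) * Z .z + B)) := by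
  refine h CX .x .z _ _ (fun h => by cases h) ?_ ?_ h1 h2 ne_A <;>
  repeat' first
      | with_reducible apply nv_mul | with_reducible apply nv_add | with_reducible apply nv_sub | with_reducible apply nv_pow | with_reducible apply nv_neg | with_reducible exact nv_two
      | with_reducible exact nv_X (fun h => by cases h)

private lemma prime_y (h : S_SQF) (A : MvPolynomial CX ℂ) (hA : A ≠ 0) (h1 : CX.x ∉ A.vars)
    (h2 : CX.y 1 ∉ A.vars) :
    Prime (Z .x ^ 2 + (Z (.y 0) * A * Z (.y 1) + (- Z (.y 2) ^ 2) * A)) := by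
  refine h CX .x (.y 1) _ _ (fun h => by cases h) ?_ ?_ ?_ ?_
    (mul_ne_zero (X_ne_zero _) hA) <;>
  repeat' first
      | assumption | with_reducible apply nv_mul | with_reducible apply nv_add | with_reducible apply nv_sub | with_reducible apply nv_pow | with_reducible apply nv_neg
      | with_reducible exact nv_two | with_reducible exact nv_X (fun h => by cases h)
      | with_reducible exact nv_X (by simp)

private lemma not_dvd {p : MvPolynomial CX ℂ} (j : CX) (P : CX → ℂ) (h : P j = 0)
    (h2 : eval P p ≠ 0) : ¬ X j ∣ p := by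
  rintro ⟨r, rfl⟩
  apply h2
  rw [map_mul, eval_X, h, zero_mul]

private lemma prime_x : Prime (ph .x FX) := by
  rw [ph_FX_x]
  refine (irreducible_mul_X_add _ _ CX.z ne_A ?_ ?_ ?_).prime
  · repeat' first
      | with_reducible apply nv_mul | with_reducible apply nv_add | with_reducible apply nv_sub | with_reducible apply nv_pow | with_reducible apply nv_neg | with_reducible exact nv_two
      | with_reducible exact nv_X (fun h => by cases h)
  · repeat' first
      | with_reducible apply nv_mul | with_reducible apply nv_add | with_reducible apply nv_sub | with_reducible apply nv_pow | with_reducible apply nv_neg | with_reducible exact nv_two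
      | with_reducible exact nv_X (fun h => by cases h)
  · have h1 : IsRelPrime (Z .a : MvPolynomial CX ℂ) ((Z (.y 0) * Z (.y 1) - Z (.y 2) ^ 2) * (Z .w ^ 2 * Z .a ^ 2 + Z .v ^ 2 * Z .b ^ 2)) := by
      rw [(X_prime (R := ℂ)).irreducible.isRelPrime_iff_not_dvd]
      refine not_dvd _ (fun i => if i = .a ∨ i = .w ∨ i = .y 2 then 0 else 1) (by simp) ?_
      simp only [map_add, map_mul, map_pow, map_sub, eval_X, reduceCtorEq, or_false, or_true,
        or_self, if_false, if_true, CX.y.injEq, Fin.reduceEq]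
      norm_num
    have h2 : IsRelPrime (Z .b : MvPolynomial CX ℂ) ((Z (.y 0) * Z (.y 1) - Z (.y 2) ^ 2) * (Z .w ^ 2 * Z .a ^ 2 + Z .v ^ 2 * Z .b ^ 2)) := by
      rw [(X_prime (R := ℂ)).irreducible.isRelPrime_iff_not_dvd]
      refine not_dvd _ (fun i => if i = .b ∨ i = .v ∨ i = .y 2 then 0 else 1) (by simp) ?_
      simp only [map_add, map_mul, map_pow, map_sub, eval_X, reduceCtorEq, or_false, or_true,
        or_self, if_false, if_true, CX.y.injEq, Fin.reduceEq]
      norm_num
    have h3 : IsUnit (2 : MvPolynomial CX ℂ) := by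
      have h7 : (2 : MvPolynomial CX ℂ) = C 2 := rfl
      rw [h7]
      exact (isUnit_iff_ne_zero.2 (two_ne_zero (α := ℂ))).map C
    exact (h3.isRelPrime_left.mul_left h1).mul_left h2

end XPRI

theorem xpri (h : S_SQF) : S_XPRI := by
  intro j
  change Prime (Ideal.Quotient.mk (Ideal.span {FX}) (X j))
  by_cases hj : j = .x
  · subst hj
    refine XPRI.prime_of _ XPRI.prime_x (fun i => match i with
      | .x => 1 | .z => 1 | .a => 1 | .b => - 2⁻¹ | _ => 0) ?_ ?_
    · rw [XPRI.ev_FX]
      norm_num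
    · exact one_ne_zero
  · refine XPRI.prime_of _ ?_ (fun i => if i = j then (1 : ℂ) else 0) ?_ ?_
    · cases j with
      | t i =>
        rw [XPRI.ph_FX_t]
        refine XPRI.prime_z h _ ?_ ?_ <;>
        repeat' first
          | with_reducible apply XPRI.nv_mul | with_reducible apply XPRI.nv_add | with_reducible apply XPRI.nv_sub | with_reducible apply XPRI.nv_pow
          | with_reducible apply XPRI.nv_neg | with_reducible exact XPRI.nv_two | with_reducible exact XPRI.nv_X (fun h => by cases h)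
      | y i =>
        fin_cases i
        · change Prime (XPRI.ph (.y 0) FX)
          rw [XPRI.ph_FX_y0]
          refine XPRI.prime_z h _ ?_ ?_ <;>
          repeat' first
            | with_reducible apply XPRI.nv_mul | with_reducible apply XPRI.nv_add | with_reducible apply XPRI.nv_sub | with_reducible apply XPRI.nv_pow
            | with_reducible apply XPRI.nv_neg | with_reducible exact XPRI.nv_two | with_reducible exact XPRI.nv_X (fun h => by cases h)
        · change Prime (XPRI.ph (.y 1) FX)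
          rw [XPRI.ph_FX_y1]
          refine XPRI.prime_z h _ ?_ ?_ <;>
          repeat' first
            | with_reducible apply XPRI.nv_mul | with_reducible apply XPRI.nv_add | with_reducible apply XPRI.nv_sub | with_reducible apply XPRI.nv_pow
            | with_reducible apply XPRI.nv_neg | with_reducible exact XPRI.nv_two | with_reducible exact XPRI.nv_X (fun h => by cases h)
        · change Prime (XPRI.ph (.y 2) FX)
          rw [XPRI.ph_FX_y2]
          refine XPRI.prime_z h _ ?_ ?_ <;>
          repeat' first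
            | with_reducible apply XPRI.nv_mul | with_reducible apply XPRI.nv_add | with_reducible apply XPRI.nv_sub | with_reducible apply XPRI.nv_pow
            | with_reducible apply XPRI.nv_neg | with_reducible exact XPRI.nv_two | with_reducible exact XPRI.nv_X (fun h => by cases h)
      | z =>
        rw [XPRI.ph_FX_z]
        refine XPRI.prime_y h _ XPRI.ne_S ?_ ?_ <;>
        repeat' first
          | with_reducible apply XPRI.nv_mul | with_reducible apply XPRI.nv_add | with_reducible apply XPRI.nv_sub | with_reducible apply XPRI.nv_pow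
          | with_reducible apply XPRI.nv_neg | with_reducible exact XPRI.nv_two | with_reducible exact XPRI.nv_X (fun h => by cases h)
      | w =>
        rw [XPRI.ph_FX_w]
        refine XPRI.prime_z h _ ?_ ?_ <;>
        repeat' first
          | with_reducible apply XPRI.nv_mul | with_reducible apply XPRI.nv_add | with_reducible apply XPRI.nv_sub | with_reducible apply XPRI.nv_pow
          | with_reducible apply XPRI.nv_neg | with_reducible exact XPRI.nv_two | with_reducible exact XPRI.nv_X (fun h => by cases h)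
      | v =>
        rw [XPRI.ph_FX_v]
        refine XPRI.prime_z h _ ?_ ?_ <;>
        repeat' first
          | with_reducible apply XPRI.nv_mul | with_reducible apply XPRI.nv_add | with_reducible apply XPRI.nv_sub | with_reducible apply XPRI.nv_pow
          | with_reducible apply XPRI.nv_neg | with_reducible exact XPRI.nv_two | with_reducible exact XPRI.nv_X (fun h => by cases h)
      | a =>
        rw [XPRI.ph_FX_a]
        refine XPRI.prime_y h _ XPRI.ne_P ?_ ?_ <;>
        repeat' first
          | with_reducible apply XPRI.nv_mul | with_reducible apply XPRI.nv_add | with_reducible apply XPRI.nv_sub | with_reducible apply XPRI.nv_pow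
          | with_reducible apply XPRI.nv_neg | with_reducible exact XPRI.nv_two | with_reducible exact XPRI.nv_X (fun h => by cases h)
      | b =>
        rw [XPRI.ph_FX_b]
        refine XPRI.prime_y h _ XPRI.ne_P ?_ ?_ <;>
        repeat' first
          | with_reducible apply XPRI.nv_mul | with_reducible apply XPRI.nv_add | with_reducible apply XPRI.nv_sub | with_reducible apply XPRI.nv_pow
          | with_reducible apply XPRI.nv_neg | with_reducible exact XPRI.nv_two | with_reducible exact XPRI.nv_X (fun h => by cases h)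
      | x => exact absurd rfl hj
    · rw [XPRI.ev_FX]
      cases j with
      | t i => simp only [reduceCtorEq, if_false]; ring
      | y i =>
        simp only [reduceCtorEq, if_false]
        ring
      | z => simp only [reduceCtorEq, if_false, if_true]; ring
      | w => simp only [reduceCtorEq, if_false, if_true]; ring
      | v => simp only [reduceCtorEq, if_false, if_true]; ring
      | a => simp only [reduceCtorEq, if_false, if_true]; ring
      | b => simp only [reduceCtorEq, if_false, if_true]; ring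
      | x => exact absurd rfl hj
    · rw [if_pos rfl]
      exact one_ne_zero

end FCB
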